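import Mathlib
import Pool.Agent.H656.AmenOrd
import Pool.Agent.H656.AmenExist

set_option autoImplicit false

/-!
# Every Fréchet-amenable countable Borel equivalence relation is amenable

Idea of the proof.  The main point is a diagonal lemma (`Pool.Agent.H656.Amen.diagonal`): if
`g m n x` are Borel families of probability vectors on the classes, there are Borel `h n x` with
`limsup_n ‖h n x - h n y‖ ≤ limsup_m limsup_n ‖g m n x - g m n y‖` for all equivalent `x`, `y`.
Let `S x n` tend to infinity with `n`, so slowly that `n` is as large as one likes for all `g m · x` with
`m < S x n`.  Write the relation as the union of the graphs of Borel involutions `s i`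
(Feldman-Moore), let the cost of a word in the `s i` be the sum of the numbers `i + 1`, and let
`k x n` be the minimum over all words `w` of `S (w x) n + cost w`.  Then `k x n ≤ S x n`,
`|k x n - k (s i x) n| ≤ i + 1`, and `k x n` tends to infinity, since there are only finitely many words
of bounded cost.  The averages of `g m n x` over `m ≤ k x n` are as wanted.  The theorem follows by
transfinite induction.

Definitions (`CBER`, `FAmenable`, `IsFrechetFamily`): `Pool.Agent.H656.AmenDefs`.  Families of iterated
Fréchet filters exist for every `p`, see `Pool.Agent.H656.Amen.exists_frechetFamily`.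
-/

namespace Pool.Agent.Results.MP_91e65d_lc.FrechetAmenableIsAmenable

open Pool.Agent.H656.Amen

universe u

/-- For every family of iterated Fréchet filters `Fr α`, every countable Borel equivalence relation
which is `Fr α`-amenable for some countable ordinal `α ≥ 1` is amenable, i.e. amenable along the
filter `Fr 1` of cofinite sets. -/
theorem result (p : ℕ → ℕ → ℕ) (Fr : Ordinal.{0} → Filter ℕ) (hFr : IsFrechetFamily p Fr)
    (X : Type u) [MeasurableSpace X] [StandardBorelSpace X] (E : X → X → Prop) (hE : CBER E)
    (h : ∃ α : Ordinal.{0}, 1 ≤ α ∧ α.card ≤ Cardinal.aleph0 ∧ FAmenable E (Fr α)) :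
    FAmenable E (Fr 1) := by
  obtain ⟨α, h1, h2, h3⟩ := h
  rw [hFr.one]
  exact FAmenable.of_improves hE (hFr.improves E hE α h1 h2) h3

end Pool.Agent.Results.MP_91e65d_lc.FrechetAmenableIsAmenable
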